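import Pool.Agent.Z695.Defs3
import Pool.Agent.Z702.LocZ

/-!
# Local points from a kernel vector, twists of `X_0(20)`
-/

set_option autoImplicit false
set_option linter.style.haveILetI false

namespace Pool.Agent.Y31.Z695

open Finset

open Pool.Agent.Z700 (pr lres)
open Pool.Agent.Z702 (LocI padic_sq padic_sq2 prJ8)
open Pool.Agent.Z695 (Fam)
open Pool.Agent.Z695.B (Nr Dat xwS inert_nsq)
open Pool.Agent.Y687.N (isSquare_mul_iff)
open Pool.Agent.Y664.Z (parity prime_not_dvd_pr cast_pr_ne)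

theorem sq5_of {n : ℕ} (h : n % 5 = 1 ∨ n % 5 = 4) : IsSquare ((n : ℤ) : ZMod 5) := by
  have e : ((n : ℤ) : ZMod 5) = (((n % 5 : ℕ)) : ZMod 5) := by
    rw [Int.cast_natCast, ZMod.natCast_mod]
  rw [e]
  rcases h with h | h <;> rw [h]
  · exact ⟨1, by decide⟩
  · exact ⟨2, by decide⟩

theorem prJ5 : ∀ Q : Finset ℕ, (∀ p ∈ Q, p % 5 = 1 ∨ p % 5 = 4) → pr Q % 5 = 1 ∨ pr Q % 5 = 4 := by
  intro Q
  induction Q using Finset.induction_on with
  | empty => intro _; simp [pr]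
  | insert a Q ha ih =>
    intro hQ
    have e : pr (insert a Q) = a * pr Q := by unfold pr; rw [Finset.prod_insert ha]
    rw [e, Nat.mul_mod]
    have h1 := hQ a (Finset.mem_insert_self _ _)
    have h2 := ih fun p hp => hQ p (Finset.mem_insert_of_mem hp)
    rcases h1 with h1 | h1 <;> rcases h2 with h2 | h2 <;> rw [h1, h2] <;> decide

/-- **local points** from a kernel vector -/
theorem t_LOC (hq : Pool.Agent.Z702.S_LQ) (hg : Pool.Agent.Z695.C.S_LG)
    (hp : Pool.Agent.Z695.C.S_LP) : Pool.Agent.Z695.C.S_LOC := by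
  classical
  intro e P S hD J hJ k1 k2
  have hP : ∀ p ∈ P, Fam p := hD.hP
  have he := hD.he
  have hP8 : ∀ p ∈ P, p % 8 = 1 := by
    intro p h
    have := (hP p h).2
    omega
  have hP5 : ∀ p ∈ P, p % 5 = 1 ∨ p % 5 = 4 := by
    intro p h
    have := (hP p h).2
    omega
  have hPp : ∀ p ∈ P, p.Prime := fun p h => (hP p h).1
  have hSp : ∀ p ∈ S, p.Prime := fun p h => (hD.hS p h).1
  have hS2 : ∀ p ∈ S, p ≠ 2 := by
    rintro p h rfl
    have := (hD.hS 2 h).2.1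
    omega
  have hJp : ∀ p ∈ J, p.Prime := fun p h => hPp p (hJ h)
  have hprP0 : (pr P : ℤ) ≠ 0 := by
    exact_mod_cast (Finset.prod_ne_zero_iff.2 fun r hr => (hPp r hr).ne_zero)
  have hprS0 : (pr S : ℤ) ≠ 0 := by
    exact_mod_cast (Finset.prod_ne_zero_iff.2 fun r hr => (hSp r hr).ne_zero)
  have hprJ0 : 0 < pr J := Nat.pos_of_ne_zero
    (Finset.prod_ne_zero_iff.2 fun r hr => (hJp r hr).ne_zero)
  have hMe : (pr (P ∪ S) : ℤ) = (pr P : ℤ) * (pr S : ℤ) := by
    unfold pr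
    rw [Finset.prod_union hD.disj]
    push_cast
    rfl
  have hM0 : (pr P : ℤ) * (pr S : ℤ) ≠ 0 := mul_ne_zero hprP0 hprS0
  rw [hMe]
  set M : ℤ := (pr P : ℤ) * (pr S : ℤ) with hM
  have hM2 : 0 < M ^ 2 := by positivity
  have hb : (-M ^ 2 : ℤ) ≠ 0 := by nlinarith
  have hab : (-11 * M) ^ 2 - 4 * (-M ^ 2) ≠ 0 := by nlinarith
  have hd0 : ((pr J : ℕ) : ℤ) ≠ 0 := by exact_mod_cast hprJ0.ne'
  obtain ⟨q1, q2⟩ := hq (-11 * M) (-M ^ 2) (pr J) hb hab hd0
  refine ⟨fun l hl => ?_, q2 (by exact_mod_cast hprJ0)⟩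
  by_cases l2 : l = 2
  · subst l2
    refine q1 2 (Or.inl ?_)
    have h8 : ((pr J : ℕ) : ℤ) % 8 = 1 := by
      have := prJ8 J fun p h => hP8 p (hJ h)
      omega
    exact padic_sq2 h8
  by_cases lJ : l ∈ J
  · -- a split prime dividing `d`
    have hlP : l ∈ P := hJ lJ
    have hlS : l ∉ S := fun h => (Finset.disjoint_left.1 hD.disj) hlP h
    have e1 : pr P = l * pr (P.erase l) := Pool.Agent.Y664.Z.pr_erase hlP
    have e2 : pr J = l * pr (J.erase l) := Pool.Agent.Y664.Z.pr_erase lJ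
    have e3 : pr (P.erase l) = pr (J.erase l) * pr (P \ J) := Pool.Agent.Y664.Z.pr_erase_sdiff hJ lJ
    have hlP' : ¬ l ∣ pr (P.erase l) := prime_not_dvd_pr hl.out
      (fun q h => hPp q (Finset.mem_of_mem_erase h)) (Finset.notMem_erase l P)
    have hlS' : ¬ l ∣ pr S := prime_not_dvd_pr hl.out hSp hlS
    have hlJ' : ¬ l ∣ pr (J.erase l) := prime_not_dvd_pr hl.out
      (fun q h => hJp q (Finset.mem_of_mem_erase h)) (Finset.notMem_erase l J)
    have hlPJ : ((pr (P \ J) : ℕ) : ZMod l) ≠ 0 := cast_pr_ne hl.out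
      (fun q h => hPp q (Finset.mem_sdiff.1 h).1) (fun h => (Finset.mem_sdiff.1 h).2 lJ)
    have hpar := parity hl.out (hP8 l hlP) (P \ J)
      (fun q h => ⟨hPp q (Finset.mem_sdiff.1 h).1, hP8 q (Finset.mem_sdiff.1 h).1⟩)
      (fun h => (Finset.mem_sdiff.1 h).2 lJ)
    have hk := k2 l lJ
    have hiff : IsSquare ((pr (P \ J) : ℕ) : ZMod l) ↔
        ¬ ∀ w : ZMod l, w ^ 2 - 11 * w - 1 = 0 → ¬ IsSquare (w * ((pr S : ℕ) : ZMod l)) := by
      rw [hpar]
      unfold xwS at hk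
      by_cases h5 : ∀ w : ZMod l, w ^ 2 - 11 * w - 1 = 0 → ¬ IsSquare (w * ((pr S : ℕ) : ZMod l))
      · rw [if_pos h5, Int.even_add] at hk
        constructor
        · intro h7
          exact absurd (hk.1 h7) (by decide)
        · intro h7
          exact absurd h5 h7
      · rw [if_neg h5, add_zero] at hk
        exact ⟨fun _ => h5, fun _ => hk⟩
    have h := hp l (hP8 l hlP) (hP5 l hlP) (pr S) (pr (P.erase l) * pr S) (pr (J.erase l)) hlS' (by
        intro h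
        rcases (Nat.prime_iff_prime_int.1 hl.out).dvd_or_dvd h with h | h
        · exact hlP' (by exact_mod_cast h)
        · exact hlS' (by exact_mod_cast h)) (by exact_mod_cast hlJ') (by
        rw [← hiff]
        have e4 : (((((pr (P.erase l) : ℕ) : ℤ) * ((pr S : ℕ) : ℤ)) * ((pr (J.erase l) : ℕ) : ℤ) *
            ((pr S : ℕ) : ℤ) : ℤ) : ZMod l) = ((pr (P \ J) : ℕ) : ZMod l) *
              ((((pr (J.erase l) : ℕ) : ZMod l) * ((pr S : ℕ) : ZMod l)) *
                (((pr (J.erase l) : ℕ) : ZMod l) * ((pr S : ℕ) : ZMod l))) := by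
          rw [e3]
          push_cast
          ring
        rw [e4]
        have hJn : ((pr (J.erase l) : ℕ) : ZMod l) ≠ 0 := by
          rwa [Ne, ZMod.natCast_eq_zero_iff]
        have hSn : ((pr S : ℕ) : ZMod l) ≠ 0 := by
          rwa [Ne, ZMod.natCast_eq_zero_iff]
        have h0 : (((pr (J.erase l) : ℕ) : ZMod l) * ((pr S : ℕ) : ZMod l)) ≠ 0 :=
          mul_ne_zero hJn hSn
        rw [isSquare_mul_iff hlPJ (mul_ne_zero h0 h0)]
        constructor
        · intro h; exact h.2 ⟨_, rfl⟩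
        · intro h; exact ⟨fun _ => ⟨_, rfl⟩, fun _ => h⟩)
    have e5 : (l : ℤ) * ((pr (P.erase l) : ℕ) * ((pr S : ℕ) : ℤ)) = M := by
      rw [hM, e1]
      push_cast
      ring
    have e6 : (l : ℤ) * ((pr (J.erase l) : ℕ) : ℤ) = ((pr J : ℕ) : ℤ) := by
      rw [e2]
      push_cast
      ring
    rw [e5, e6] at h
    exact h
  have hlJn : ¬ l ∣ pr J := prime_not_dvd_pr hl.out hJp lJ
  have hlJz : ¬ (l : ℤ) ∣ ((pr J : ℕ) : ℤ) := by exact_mod_cast hlJn
  by_cases l5 : l = 5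
  · subst l5
    refine q1 5 (Or.inl ?_)
    refine padic_sq (by norm_num) hlJz ?_
    exact sq5_of (prJ5 J fun p h => hP5 p (hJ h))
  by_cases hlP : l ∈ P
  · refine q1 l (Or.inl ?_)
    refine padic_sq l2 hlJz ?_
    rw [Int.cast_natCast]
    exact (parity hl.out (hP8 l hlP) J (fun q h => ⟨hJp q h, hP8 q (hJ h)⟩) lJ).2
      (k1 l (Finset.mem_sdiff.2 ⟨hlP, lJ⟩))
  by_cases hlS : l ∈ S
  · have hn5 : ¬ IsSquare (5 : ZMod l) := inert_nsq (hD.hS l hlS).2.2 l2
    refine q1 l ?_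
    by_cases hs : IsSquare (((pr J : ℕ) : ℤ) : ZMod l)
    · exact Or.inl (padic_sq l2 hlJz hs)
    · right
      have hJ0 : (((pr J : ℕ) : ℤ) : ZMod l) ≠ 0 := by
        rwa [Ne, ZMod.intCast_zmod_eq_zero_iff_dvd]
      have h50 : (5 : ZMod l) ≠ 0 := by
        intro h
        exact hn5 ⟨0, by rw [h]; ring⟩
      have h1 : IsSquare (((((pr J : ℕ) : ℤ) * 5 : ℤ)) : ZMod l) := by
        push_cast at hs hJ0 ⊢
        rw [isSquare_mul_iff hJ0 h50]
        exact ⟨fun h => absurd h hs, fun h => absurd h hn5⟩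
      have h2 : ¬ (l : ℤ) ∣ ((pr J : ℕ) : ℤ) * 5 := by
        rw [← ZMod.intCast_zmod_eq_zero_iff_dvd]
        push_cast at hJ0 ⊢
        exact mul_ne_zero hJ0 h50
      obtain ⟨r, hr⟩ := padic_sq l2 h2 h1
      refine ⟨5 * (M : ℚ_[l]) * r, ?_⟩
      push_cast at hr ⊢
      linear_combination 25 * (M : ℚ_[l]) ^ 2 * hr
  · exact hg l M (pr J) l2 l5 (by
      intro h
      rcases (Nat.prime_iff_prime_int.1 hl.out).dvd_or_dvd h with h | h
      · exact prime_not_dvd_pr hl.out hPp hlP (by exact_mod_cast h)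
      · exact prime_not_dvd_pr hl.out hSp hlS (by exact_mod_cast h)) hlJz

end Pool.Agent.Y31.Z695
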